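import Pool.Agent.Helper42.PW.Goals1

/-!
# Packet PW-N_HEN: Hensel's lemma for `p`-th powers
-/

set_option autoImplicit false

namespace Pool.Agent.Helper60.PW

open NumberField IsDedekindDomain
open Pool.Agent.Helper42.PW

section step

variable {F : Type} [Field F] {V : Valuation F (WithZero (Multiplicative ℤ))}

theorem val_nat_le (n : ℕ) : V (n : F) ≤ 1 := by
  induction n with
  | zero => simp
  | succ n ih =>
    push_cast
    exact (V.map_add _ _).trans (max_le ih (by rw [map_one]))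

theorem bin (a : F) (ha : V a ≤ 1) (n : ℕ) :
    ∃ r : F, V r ≤ 1 ∧ (1 + a) ^ n = 1 + n * a + a ^ 2 * r := by
  induction n with
  | zero => exact ⟨0, by simp, by simp⟩
  | succ n ih =>
    obtain ⟨r, hr, h⟩ := ih
    refine ⟨(n + r) + a * r, ?_, ?_⟩
    · refine (V.map_add _ _).trans (max_le ((V.map_add _ _).trans (max_le (val_nat_le n) hr)) ?_)
      rw [map_mul]
      exact mul_le_one' ha hr
    · rw [pow_succ, h]
      push_cast
      ring

theorem val_one_add (a : F) (ha : V a < 1) : V (1 + a) = 1 := by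
  have := V.map_add_eq_of_lt_left (x := 1) (y := a) (by rwa [map_one])
  rwa [map_one] at this

theorem step {p : ℕ} (hp : (p : F) ≠ 0) (t : F) (ht0 : t ≠ 0) (ht1 : V t < 1)
    (ht3 : V t ≤ V (p : F) ^ 3) : V (t / p) < 1 ∧ V ((1 + t) / (1 + t / p) ^ p - 1) < V t := by
  have hvp : V (p : F) ≠ 0 := by rwa [Ne, map_eq_zero]
  have hvt : V t ≠ 0 := by rwa [Ne, map_eq_zero]
  have hvp0 : 0 < V (p : F) := zero_lt_iff.2 hvp
  have hvt0 : 0 < V t := zero_lt_iff.2 hvt
  have key : V (t / p) < 1 ∧ V (t / p) ^ 2 < V t := by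
    rcases (val_nat_le (V := V) p).eq_or_lt with h1 | h1
    · rw [map_div₀, h1, div_one]
      refine ⟨ht1, ?_⟩
      rw [pow_two]
      exact mul_lt_of_lt_one_left hvt0 ht1
    · have h2 : V (t / p) ≤ V (p : F) ^ 2 := by
        rw [map_div₀, div_le_iff₀ hvp0, ← pow_succ]
        exact ht3
      have h3 : V (p : F) ^ 2 < 1 := pow_lt_one₀ zero_le h1 two_ne_zero
      refine ⟨h2.trans_lt h3, ?_⟩
      have h4 : V (t / p) ^ 2 ≤ V t * V (p : F) := by
        calc V (t / p) ^ 2 = V (t / p) * V (t / p) := pow_two _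
          _ ≤ V (t / p) * V (p : F) ^ 2 := mul_le_mul_right h2 _
          _ = V t * V (p : F) := by
              rw [map_div₀, pow_two, ← mul_assoc, div_mul_cancel₀ _ hvp]
      exact h4.trans_lt (mul_lt_of_lt_one_right hvt0 h1)
  refine ⟨key.1, ?_⟩
  obtain ⟨r, hr, h⟩ := bin (t / p) key.1.le p
  have h1 : V (1 + t / p) = 1 := val_one_add _ key.1
  have h2 : (1 + t / p : F) ≠ 0 := by
    intro h0
    rw [h0, map_zero] at h1
    exact zero_ne_one h1
  have h3 : (1 + t) / (1 + t / p) ^ p - 1 = -((t / p) ^ 2 * r) / (1 + t / p) ^ p := by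
    have h4 : (p : F) * (t / p) = t := mul_div_cancel₀ _ hp
    rw [h4] at h
    rw [eq_div_iff (pow_ne_zero _ h2), sub_mul, div_mul_cancel₀ _ (pow_ne_zero _ h2), one_mul, h]
    ring
  rw [h3, map_div₀, map_pow, h1, one_pow, div_one, Valuation.map_neg, map_mul, map_pow]
  calc V (t / p) ^ 2 * V r ≤ V (t / p) ^ 2 * 1 := mul_le_mul_right hr _
    _ = V (t / p) ^ 2 := mul_one _
    _ < V t := key.2

theorem le_exp_of_lt {x : WithZero (Multiplicative ℤ)} {n : ℤ} (h : x < WithZero.exp n) :
    x ≤ WithZero.exp (n - 1) := by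
  rcases eq_or_ne x 0 with rfl | hx
  · exact zero_le
  · rw [← WithZero.log_le_iff_le_exp hx]
    rw [← WithZero.log_lt_iff_lt_exp hx] at h
    omega

end step

theorem n_hen : Pool.Agent.Helper42.PW.N_HEN := by
  intro p hp F _ _ W u hu N
  have hp0 : (p : F) ≠ 0 := Nat.cast_ne_zero.2 hp.out.ne_zero
  have key : ∀ N : ℕ, ∃ v t : F, u = v ^ p * (1 + t) ∧ W.valuation F (v - 1) < 1 ∧
      W.valuation F t < 1 ∧ W.valuation F t ≤ W.valuation F (p : F) ^ 3 ∧
      W.valuation F t ≤ WithZero.exp (-(N : ℤ)) := by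
    intro N
    induction N with
    | zero =>
      refine ⟨1, u - 1, by ring, by simp, hu.1, hu.2, ?_⟩
      rw [Nat.cast_zero, neg_zero, WithZero.exp_zero]
      exact hu.1.le
    | succ N ih =>
      obtain ⟨v, t, h1, h2, h3, h4, h5⟩ := ih
      rcases eq_or_ne t 0 with rfl | ht
      · exact ⟨v, 0, h1, h2, h3, h4, by rw [map_zero]; exact zero_le⟩
      · obtain ⟨h6, h7⟩ := step hp0 t ht h3 h4
        have h8 : W.valuation F (1 + t / p) = 1 := val_one_add _ h6
        have h9 : (1 + t / p : F) ≠ 0 := by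
          intro h0
          rw [h0, map_zero] at h8
          exact zero_ne_one h8
        refine ⟨v * (1 + t / p), (1 + t) / (1 + t / p) ^ p - 1, ?_, ?_, h7.trans h3,
          h7.le.trans h4, ?_⟩
        · rw [h1, mul_pow, add_sub_cancel, mul_assoc, mul_div_cancel₀ _ (pow_ne_zero _ h9)]
        · have h10 : v * (1 + t / p) - 1 = (v - 1) * (1 + t / p) + t / p := by ring
          rw [h10]
          refine ((W.valuation F).map_add _ _).trans_lt (max_lt ?_ h6)
          rw [map_mul, h8, mul_one]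
          exact h2
        · have h11 := le_exp_of_lt (h7.trans_le h5)
          refine h11.trans (le_of_eq ?_)
          congr 1
          push_cast
          ring
  obtain ⟨v, t, h1, h2, h3, h4, h5⟩ := key N
  refine ⟨v, h2, ?_⟩
  have hv : W.valuation F v = 1 := by
    have h6 : v = 1 + (v - 1) := by ring
    rw [h6]
    exact val_one_add _ h2
  have h6 : u - v ^ p = v ^ p * t := by rw [h1]; ring
  rw [h6, map_mul, map_pow, hv, one_pow, one_mul]
  exact h5

end Pool.Agent.Helper60.PW
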